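import Mathlib

/-!
# An ISS Lyapunov function in implication form which is not one in dissipative form

The state space is the Banach space of continuous functions on the circle with values in `ℂ`, the
system is a decaying transport equation whose speed is the positive part of `|u| - ‖x‖`, and
`V x = ‖x‖ + |Im x(0)|` is Lipschitz.
-/

open scoped NNReal Topology
open MeasureTheory

namespace Pool.Agent.Results.MP_cf29c0_an.ImplicationNotDissipative

/-- The class `PD`. -/
def IsPD (γ : ℝ≥0 → ℝ≥0) : Prop := Continuous γ ∧ γ 0 = 0 ∧ ∀ r, 0 < r → 0 < γ r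

/-- The class `K`. -/
def IsK (γ : ℝ≥0 → ℝ≥0) : Prop := IsPD γ ∧ StrictMono γ

/-- The class `K_∞`. -/
def IsKInf (γ : ℝ≥0 → ℝ≥0) : Prop := IsK γ ∧ ¬ BddAbove (Set.range γ)

/-- A (forward complete) control system with states in the normed space `X` and a normed space of
inputs which are functions `ℝ₊ → U`. -/
structure ControlSystem (X U : Type) [NormedAddCommGroup X] [NormedSpace ℝ X]
    [NormedAddCommGroup U] [NormedSpace ℝ U] where
  /-- the vector space of inputs -/
  inputs : Submodule ℝ (ℝ≥0 → U)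
  /-- the norm on the space of inputs -/
  nrm : Seminorm ℝ inputs
  nrm_eq_zero : ∀ u : inputs, nrm u = 0 → u = 0
  shift_mem : ∀ u ∈ inputs, ∀ τ : ℝ≥0, (fun s => u (s + τ)) ∈ inputs
  nrm_shift : ∀ (u : inputs) (τ : ℝ≥0),
    nrm ⟨fun s => u.1 (s + τ), shift_mem u.1 u.2 τ⟩ ≤ nrm u
  concat_mem : ∀ u ∈ inputs, ∀ v ∈ inputs, ∀ t : ℝ≥0, 0 < t →
    (fun s => if s ≤ t then u s else v (s - t)) ∈ inputs
  /-- the transition map -/
  flow : ℝ≥0 → X → inputs → X
  flow_zero : ∀ x u, flow 0 x u = x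
  causal : ∀ (t : ℝ≥0) (x : X) (u v : inputs), (∀ s ≤ t, u.1 s = v.1 s) →
    flow t x u = flow t x v
  continuous_flow : ∀ x u, Continuous fun t => flow t x u
  cocycle : ∀ (t h : ℝ≥0) (x : X) (u : inputs),
    flow h (flow t x u) ⟨fun s => u.1 (s + t), shift_mem u.1 u.2 t⟩ = flow (t + h) x u

section defs

variable {X U : Type} [NormedAddCommGroup X] [NormedSpace ℝ X]
    [NormedAddCommGroup U] [NormedSpace ℝ U]

/-- The derivative `V̇_u(x)`, the upper limit of `(V(φ(t,x,u)) - V(x)) / t` as `t → 0+`, as an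
extended real number. -/
noncomputable def derivative (Sy : ControlSystem X U) (V : X → ℝ≥0) (u : Sy.inputs) (x : X) :
    EReal :=
  Filter.limsup (fun t : ℝ≥0 => ((((V (Sy.flow t x u) : ℝ) - (V x : ℝ)) / (t : ℝ) : ℝ) : EReal))
    (𝓝[>] 0)

/-- `V` is an ISS Lyapunov function in dissipative form. -/
def DissipativeForm (Sy : ControlSystem X U) (V : X → ℝ≥0) : Prop :=
  ∃ ψ₁ ψ₂ α σ : ℝ≥0 → ℝ≥0, IsKInf ψ₁ ∧ IsKInf ψ₂ ∧ IsKInf α ∧ IsK σ ∧
    (∀ x : X, ψ₁ ‖x‖₊ ≤ V x ∧ V x ≤ ψ₂ ‖x‖₊) ∧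
    ∀ (x : X) (u : Sy.inputs), derivative Sy V u x ≤
      ((-(α ‖x‖₊ : ℝ) + (σ (Sy.nrm u).toNNReal : ℝ) : ℝ) : EReal)

/-- `V` is an ISS Lyapunov function in implication form. -/
def ImplicationForm (Sy : ControlSystem X U) (V : X → ℝ≥0) : Prop :=
  ∃ ψ₁ ψ₂ χ α : ℝ≥0 → ℝ≥0, IsKInf ψ₁ ∧ IsKInf ψ₂ ∧ IsKInf χ ∧ IsPD α ∧
    (∀ x : X, ψ₁ ‖x‖₊ ≤ V x ∧ V x ≤ ψ₂ ‖x‖₊) ∧
    ∀ (x : X) (u : Sy.inputs), χ (Sy.nrm u).toNNReal ≤ ‖x‖₊ →
      derivative Sy V u x ≤ ((-(α ‖x‖₊ : ℝ) : ℝ) : EReal)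

end defs

/-! ### The input space -/

/-- bounded measurable functions -/
def Inp : Submodule ℝ (ℝ≥0 → ℝ) where
  carrier := {u | Measurable u ∧ ∃ C, ∀ s, |u s| ≤ C}
  add_mem' := by
    rintro u v ⟨hu, C, hC⟩ ⟨hv, D, hD⟩
    exact ⟨hu.add hv, C + D, fun s => (abs_add_le _ _).trans (add_le_add (hC s) (hD s))⟩
  zero_mem' := ⟨measurable_const, 0, fun s => by simp⟩
  smul_mem' := by
    rintro c u ⟨hu, C, hC⟩
    refine ⟨hu.const_smul c, |c| * C, fun s => ?_⟩
    rw [Pi.smul_apply, smul_eq_mul, abs_mul]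
    exact mul_le_mul_of_nonneg_left (hC s) (abs_nonneg c)

lemma inp_bdd (u : Inp) : BddAbove (Set.range fun s => |u.1 s|) := by
  obtain ⟨-, C, hC⟩ := u.2
  exact ⟨C, by rintro _ ⟨s, rfl⟩; exact hC s⟩

/-- the supremum norm -/
noncomputable def supNorm : Seminorm ℝ Inp :=
  Seminorm.of (fun u => ⨆ s, |u.1 s|)
    (fun u v => ciSup_le fun s => (abs_add_le (u.1 s) (v.1 s)).trans
      (add_le_add (le_ciSup (inp_bdd u) s) (le_ciSup (inp_bdd v) s)))
    (fun a u => by
      rw [Real.norm_eq_abs, Real.mul_iSup_of_nonneg (abs_nonneg a)]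
      congr 1
      funext s
      rw [← abs_mul]
      rfl)

lemma supNorm_def (u : Inp) : supNorm u = ⨆ s, |u.1 s| := rfl

lemma le_supNorm (u : Inp) (s : ℝ≥0) : |u.1 s| ≤ supNorm u := by
  rw [supNorm_def]; exact le_ciSup (inp_bdd u) s

lemma supNorm_le (u : Inp) (C : ℝ) (h : ∀ s, |u.1 s| ≤ C) : supNorm u ≤ C := by
  rw [supNorm_def]; exact ciSup_le h

/-! ### The speed and the flow -/

/-- the speed at time `s` of the trajectory of a state of norm `r` -/
noncomputable def speed (r : ℝ) (u : ℝ≥0 → ℝ) (s : ℝ) : ℝ :=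
  max (|u s.toNNReal| - Real.exp (-s) * r) 0

/-- the accumulated translation -/
noncomputable def tau (t : ℝ) (r : ℝ) (u : ℝ≥0 → ℝ) : ℝ := ∫ s in (0 : ℝ)..t, speed r u s

lemma speed_measurable (r : ℝ) (u : Inp) : Measurable (speed r u.1) := by
  unfold speed
  have h1 : Measurable fun s : ℝ => |u.1 s.toNNReal| :=
    (u.2.1.comp measurable_real_toNNReal).abs
  have h2 : Measurable fun s : ℝ => Real.exp (-s) * r :=
    (Real.measurable_exp.comp measurable_neg).mul_const r
  exact (h1.sub h2).max measurable_const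

lemma speed_nonneg (r : ℝ) (u : ℝ≥0 → ℝ) (s : ℝ) : 0 ≤ speed r u s := le_max_right _ _

lemma speed_le (r : ℝ) (hr : 0 ≤ r) (u : Inp) (s : ℝ) : speed r u.1 s ≤ supNorm u := by
  refine max_le ?_ (apply_nonneg _ _)
  have h1 := le_supNorm u s.toNNReal
  have h2 : 0 ≤ Real.exp (-s) * r := by positivity
  linarith

lemma speed_int (r : ℝ) (hr : 0 ≤ r) (u : Inp) (a b : ℝ) :
    IntervalIntegrable (speed r u.1) volume a b := by
  rw [intervalIntegrable_iff]
  refine Measure.integrableOn_of_bounded (M := supNorm u) ?_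
    (speed_measurable r u).aestronglyMeasurable ?_
  · simp [Set.uIoc]
  · filter_upwards with s
    rw [Real.norm_eq_abs, abs_of_nonneg (speed_nonneg _ _ _)]
    exact speed_le r hr u s

/-- The state space: continuous functions on the circle. -/
abbrev X : Type := C(UnitAddCircle, ℂ)

/-- translation of the circle -/
noncomputable def rot (τ : ℝ) : C(UnitAddCircle, UnitAddCircle) :=
  ⟨fun s => s + (τ : UnitAddCircle), continuous_id.add continuous_const⟩

/-- the flow -/
noncomputable def fl (t : ℝ≥0) (x : X) (u : Inp) : X :=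
  (Real.exp (-(t : ℝ))) • x.comp (rot (tau t ‖x‖ u.1))

lemma norm_comp_rot (x : X) (τ : ℝ) : ‖x.comp (rot τ)‖ = ‖x‖ := by
  apply le_antisymm
  · rw [ContinuousMap.norm_le _ (norm_nonneg _)]
    intro s
    exact x.norm_coe_le_norm _
  · rw [ContinuousMap.norm_le _ (norm_nonneg _)]
    intro s
    have := (x.comp (rot τ)).norm_coe_le_norm (s - (τ : UnitAddCircle))
    have h2 : (x.comp (rot τ)) (s - (τ : UnitAddCircle)) = x s := by
      simp [rot]
    rwa [h2] at this

lemma norm_fl (t : ℝ≥0) (x : X) (u : Inp) : ‖fl t x u‖ = Real.exp (-(t : ℝ)) * ‖x‖ := by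
  rw [fl, norm_smul, norm_comp_rot, Real.norm_eq_abs, abs_of_pos (Real.exp_pos _)]

lemma continuous_rot (x : X) : Continuous fun τ : ℝ => x.comp (rot τ) := by
  have h : Continuous fun p : ℝ × UnitAddCircle => x (p.2 + (p.1 : UnitAddCircle)) := by
    have h1 : Continuous fun p : ℝ × UnitAddCircle => (p.1 : UnitAddCircle) :=
      (AddCircle.continuous_mk' 1).comp continuous_fst
    exact x.continuous.comp (continuous_snd.add h1)
  exact (ContinuousMap.curry ⟨_, h⟩).continuous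

lemma tau_continuous (r : ℝ) (hr : 0 ≤ r) (u : Inp) : Continuous fun t : ℝ≥0 => tau t r u.1 :=
  (intervalIntegral.continuous_primitive (fun a b => speed_int r hr u a b) 0).comp
    NNReal.continuous_coe

lemma shift_mem' (u : ℝ≥0 → ℝ) (hu : u ∈ Inp) (τ : ℝ≥0) : (fun s => u (s + τ)) ∈ Inp := by
  obtain ⟨h1, C, hC⟩ := hu
  exact ⟨h1.comp (measurable_id.add_const τ), C, fun s => hC _⟩

lemma tau_add (t h : ℝ≥0) (r : ℝ) (hr : 0 ≤ r) (u : Inp) :
    tau ((t + h : ℝ≥0) : ℝ) r u.1 = tau t r u.1 +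
      tau h (Real.exp (-(t : ℝ)) * r) (fun s => u.1 (s + t)) := by
  have h1 : tau h (Real.exp (-(t : ℝ)) * r) (fun s => u.1 (s + t)) =
      ∫ s in (t : ℝ)..((t + h : ℝ≥0) : ℝ), speed r u.1 s := by
    have h2 : tau h (Real.exp (-(t : ℝ)) * r) (fun s => u.1 (s + t)) =
        ∫ s in (0 : ℝ)..h, speed r u.1 (s + t) := by
      refine intervalIntegral.integral_congr fun s hs => ?_
      rw [Set.uIcc_of_le h.coe_nonneg] at hs
      simp only [speed]
      have h3 : (s + (t : ℝ)).toNNReal = s.toNNReal + t := by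
        rw [Real.toNNReal_add hs.1 t.coe_nonneg, Real.toNNReal_coe]
      rw [h3, ← mul_assoc, ← Real.exp_add]
      congr 4
      ring
    rw [h2, intervalIntegral.integral_comp_add_right (fun s => speed r u.1 s)]
    congr 1
    · simp
    · rw [NNReal.coe_add]; ring
  rw [h1]
  exact (intervalIntegral.integral_add_adjacent_intervals (speed_int r hr u _ _)
    (speed_int r hr u _ _)).symm

/-- The control system. -/
noncomputable def sys : ControlSystem X ℝ where
  inputs := Inp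
  nrm := supNorm
  nrm_eq_zero := by
    intro u hu
    apply Subtype.ext
    funext s
    have := le_supNorm u s
    rw [hu] at this
    exact abs_nonpos_iff.mp this
  shift_mem := shift_mem'
  nrm_shift := fun u τ => supNorm_le _ _ fun s => le_supNorm u (s + τ)
  concat_mem := by
    rintro u ⟨hu, C, hC⟩ v ⟨hv, D, hD⟩ t _
    refine ⟨Measurable.ite measurableSet_Iic hu (hv.comp (measurable_id.sub_const t)),
      max C D, fun s => ?_⟩
    dsimp only
    split
    · exact (hC s).trans (le_max_left _ _)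
    · exact (hD _).trans (le_max_right _ _)
  flow := fl
  flow_zero := by
    intro x u
    ext s
    simp [fl, tau, rot]
  causal := by
    intro t x u v h
    have : tau t ‖x‖ u.1 = tau t ‖x‖ v.1 := by
      refine intervalIntegral.integral_congr fun s hs => ?_
      rw [Set.uIcc_of_le t.coe_nonneg] at hs
      simp only [speed]
      rw [h]
      exact Real.toNNReal_le_iff_le_coe.mpr hs.2
    rw [fl, fl, this]
  continuous_flow := by
    intro x u
    have h1 : Continuous fun t : ℝ≥0 => Real.exp (-(t : ℝ)) :=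
      Real.continuous_exp.comp (continuous_neg.comp NNReal.continuous_coe)
    exact h1.smul ((continuous_rot x).comp (tau_continuous ‖x‖ (norm_nonneg _) u))
  cocycle := by
    intro t h x u
    have h1 : ‖fl t x u‖ = Real.exp (-(t : ℝ)) * ‖x‖ := norm_fl t x u
    have h2 := tau_add t h ‖x‖ (norm_nonneg _) u
    ext s
    have e1 : fl h (fl t x u) ⟨fun s => u.1 (s + t), shift_mem' u.1 u.2 t⟩ s =
        (Real.exp (-(h : ℝ))) • ((Real.exp (-(t : ℝ))) • x ((s + ((tau h ‖fl t x u‖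
          (fun s => u.1 (s + t)) : ℝ) : UnitAddCircle)) + ((tau t ‖x‖ u.1 : ℝ) :
            UnitAddCircle))) := rfl
    have e2 : fl (t + h) x u s = (Real.exp (-((t + h : ℝ≥0) : ℝ))) •
        x (s + ((tau ((t + h : ℝ≥0) : ℝ) ‖x‖ u.1 : ℝ) : UnitAddCircle)) := rfl
    rw [e1, e2, h2, h1, smul_smul, ← Real.exp_add, NNReal.coe_add]
    congr 2
    · ring
    · rw [AddCircle.coe_add]
      abel

/-! ### The Lyapunov function -/

/-- `V x = ‖x‖ + |Im x(0)|` -/
noncomputable def V (x : X) : ℝ≥0 := ‖x‖₊ + ‖(x 0).im‖₊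

lemma V_coe (x : X) : (V x : ℝ) = ‖x‖ + |(x 0).im| := rfl

lemma im_le (x : X) : |(x 0).im| ≤ ‖x‖ := (Complex.abs_im_le_norm _).trans (x.norm_coe_le_norm 0)

lemma V_lower (x : X) : ‖x‖₊ ≤ V x := by
  rw [V]; exact le_self_add

lemma V_upper (x : X) : V x ≤ 2 * ‖x‖₊ := by
  rw [← NNReal.coe_le_coe, V_coe, NNReal.coe_mul]
  have := im_le x
  simp only [NNReal.coe_ofNat, coe_nnnorm]
  linarith

lemma V_lipschitz : LipschitzWith 2 fun x => (V x : ℝ) := by
  apply LipschitzWith.of_dist_le_mul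
  intro x y
  rw [Real.dist_eq, V_coe, V_coe, dist_eq_norm]
  have h1 : |‖x‖ - ‖y‖| ≤ ‖x - y‖ := abs_norm_sub_norm_le x y
  have h2 : |(|(x 0).im| - |(y 0).im|)| ≤ ‖x - y‖ := by
    refine (abs_abs_sub_abs_le _ _).trans ?_
    have : (x 0).im - (y 0).im = ((x - y) 0).im := by simp
    rw [this]
    exact im_le _
  have h3 : ‖x‖ + |(x 0).im| - (‖y‖ + |(y 0).im|) = (‖x‖ - ‖y‖) + (|(x 0).im| - |(y 0).im|) := by
    ring
  rw [h3]
  refine (abs_add_le _ _).trans ?_
  simp only [NNReal.coe_ofNat]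
  linarith

/-- `V` along the flow -/
lemma V_fl (t : ℝ≥0) (x : X) (u : Inp) : (V (fl t x u) : ℝ) =
    Real.exp (-(t : ℝ)) * (‖x‖ + |(x ((tau t ‖x‖ u.1 : ℝ) : UnitAddCircle)).im|) := by
  rw [V_coe, norm_fl, mul_add]
  congr 1
  have : fl t x u 0 = (Real.exp (-(t : ℝ))) • x (0 + ((tau t ‖x‖ u.1 : ℝ) : UnitAddCircle)) := rfl
  rw [this, zero_add, Complex.smul_im, smul_eq_mul, abs_mul, abs_of_pos (Real.exp_pos _)]

lemma isKInf_mul (c : ℝ≥0) (hc : 0 < c) : IsKInf fun r => c * r := by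
  refine ⟨⟨⟨by fun_prop, by simp, fun r hr => by positivity⟩, fun a b hab => ?_⟩, ?_⟩
  · exact mul_lt_mul_of_pos_left hab hc
  · rintro ⟨M, hM⟩
    have := hM ⟨c⁻¹ * (M + 1), rfl⟩
    simp only at this
    rw [mul_inv_cancel_left₀ hc.ne'] at this
    exact absurd this (not_le.mpr (lt_add_one M))

/-- If `‖x‖ ≥ 2 ‖u‖` then there is no rotation for small times. -/
lemma tau_zero (t : ℝ) (ht : 0 ≤ t) (ht1 : t ≤ 1 / 2) (x : X) (u : Inp)
    (h : 2 * supNorm u ≤ ‖x‖) : tau t ‖x‖ u.1 = 0 := by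
  have : tau t ‖x‖ u.1 = ∫ s in (0 : ℝ)..t, (0 : ℝ) := by
    refine intervalIntegral.integral_congr fun s hs => ?_
    rw [Set.uIcc_of_le ht] at hs
    simp only [speed]
    apply max_eq_right
    have h1 := le_supNorm u s.toNNReal
    have h2 : 1 / 2 ≤ Real.exp (-s) := by
      have := Real.add_one_le_exp (-s)
      linarith [hs.2]
    have h3 := norm_nonneg x
    nlinarith
  rw [this]
  simp

lemma implication_bound (x : X) (u : Inp) (h : 2 * supNorm u ≤ ‖x‖) :
    derivative sys V u x ≤ ((-(‖x‖) / 2 : ℝ) : EReal) := by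
  unfold derivative
  apply Filter.limsup_le_of_le
  · isBoundedDefault
  · have hmem : Set.Iio (1 / 2 : ℝ≥0) ∈ 𝓝[>] (0 : ℝ≥0) :=
      mem_nhdsWithin_of_mem_nhds (Iio_mem_nhds (by positivity))
    filter_upwards [self_mem_nhdsWithin, hmem] with t ht ht1
    rw [EReal.coe_le_coe_iff]
    have htpos : (0 : ℝ) < t := ht
    have ht1' : (t : ℝ) < 1 / 2 := by
      have : t < 1 / 2 := ht1
      exact_mod_cast this
    have h1 : (V (sys.flow t x u) : ℝ) = Real.exp (-(t : ℝ)) * V x := by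
      have := V_fl t x u
      rw [tau_zero t htpos.le ht1'.le x u h] at this
      rw [V_coe x]
      show (V (fl t x u) : ℝ) = _
      simpa using this
    rw [h1, div_le_iff₀ htpos]
    have h2 : Real.exp (-(t : ℝ)) ≤ 1 - t / 2 := by
      have h3 := Real.add_one_le_exp (t : ℝ)
      rw [Real.exp_neg]
      rw [inv_le_comm₀ (Real.exp_pos _) (by linarith)]
      rw [inv_le_iff_one_le_mul₀ (by linarith)]
      nlinarith
    have h4 : ‖x‖ ≤ V x := by rw [V_coe]; linarith [abs_nonneg (x 0).im]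
    have h5 := norm_nonneg x
    nlinarith

/-- the states with large derivative -/
noncomputable def xk (k : ℕ) : X := (1 / 2 : ℂ) • fourier (k : ℤ)

lemma norm_xk (k : ℕ) : ‖xk k‖ = 1 / 2 := by
  rw [xk, norm_smul, fourier_norm]
  norm_num

lemma xk_apply (k : ℕ) (τ : ℝ) :
    (xk k (τ : UnitAddCircle)).im = 1 / 2 * Real.sin (2 * Real.pi * k * τ) := by
  have h1 : xk k (τ : UnitAddCircle) = (1 / 2 : ℂ) * fourier (k : ℤ) (τ : UnitAddCircle) := rfl
  have h2 : (2 * Real.pi * Complex.I * (k : ℤ) * τ / (1 : ℝ) : ℂ) =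
      ((2 * Real.pi * k * τ : ℝ) : ℂ) * Complex.I := by
    push_cast
    ring
  rw [h1, fourier_coe_apply, h2]
  have h3 : (1 / 2 : ℂ) = ((1 / 2 : ℝ) : ℂ) := by push_cast; ring
  rw [h3, Complex.im_ofReal_mul, Complex.exp_ofReal_mul_I_im]

/-- the constant input `1` -/
def one : Inp := ⟨fun _ => 1, measurable_const, 1, fun _ => by simp⟩

lemma supNorm_one : supNorm one ≤ 1 := supNorm_le _ _ fun s => by simp [one]

lemma tau_one (t : ℝ) (ht : 0 ≤ t) :
    t / 2 ≤ tau t (1 / 2) one.1 ∧ tau t (1 / 2) one.1 ≤ t := by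
  have hint := speed_int (1 / 2) (by norm_num) one 0 t
  have hone : ∀ s : ℝ≥0, one.1 s = 1 := fun _ => rfl
  constructor
  · have h1 : ∫ s in (0 : ℝ)..t, (1 / 2 : ℝ) ≤ tau t (1 / 2) one.1 := by
      refine intervalIntegral.integral_mono_on ht (by simp) hint fun s hs => ?_
      simp only [speed, hone]
      refine le_trans ?_ (le_max_left _ _)
      have : Real.exp (-s) ≤ 1 := Real.exp_le_one_iff.mpr (by linarith [hs.1])
      rw [abs_one]
      linarith
    simpa [div_eq_mul_inv] using h1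
  · have h1 : tau t (1 / 2) one.1 ≤ ∫ s in (0 : ℝ)..t, (1 : ℝ) := by
      refine intervalIntegral.integral_mono_on ht hint (by simp) fun s hs => ?_
      exact (speed_le _ (by norm_num) one s).trans supNorm_one
    simpa using h1

lemma derivative_large (k : ℕ) :
    (((k : ℝ) / 2 - 1 / 2 : ℝ) : EReal) ≤ derivative sys V one (xk k) := by
  unfold derivative
  apply Filter.le_limsup_of_frequently_le
  · apply Filter.Eventually.frequently
    have hmem : Set.Iio (1 / (4 * (k + 1)) : ℝ≥0) ∈ 𝓝[>] (0 : ℝ≥0) :=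
      mem_nhdsWithin_of_mem_nhds (Iio_mem_nhds (by positivity))
    filter_upwards [self_mem_nhdsWithin, hmem] with t ht ht1
    rw [EReal.coe_le_coe_iff]
    have htpos : (0 : ℝ) < t := ht
    have hk : (0 : ℝ) ≤ k := Nat.cast_nonneg k
    have ht2 : (t : ℝ) < 1 / (4 * (k + 1)) := by
      have h0 : t < 1 / (4 * (k + 1)) := ht1
      exact_mod_cast h0
    have ht3 : (t : ℝ) * (4 * (k + 1)) < 1 := by
      rwa [lt_div_iff₀ (by positivity)] at ht2
    have ht4 : (t : ℝ) ≤ 1 / 4 := by nlinarith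
    obtain ⟨hl, hu⟩ := tau_one t htpos.le
    have h1 : (V (sys.flow t (xk k) one) : ℝ) =
        Real.exp (-(t : ℝ)) * (1 / 2 + |1 / 2 * Real.sin (2 * Real.pi * k * tau t (1 / 2) one.1)|) := by
      have := V_fl t (xk k) one
      rw [norm_xk, xk_apply] at this
      exact this
    have h2 : (V (xk k) : ℝ) = 1 / 2 := by
      have h0 := xk_apply k 0
      have h00 : ((0 : ℝ) : UnitAddCircle) = 0 := rfl
      rw [h00] at h0
      rw [V_coe, norm_xk, h0]
      simp
    have hpi := Real.pi_pos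
    have h3 : 2 / Real.pi * (2 * Real.pi * k * tau t (1 / 2) one.1) ≤
        Real.sin (2 * Real.pi * k * tau t (1 / 2) one.1) := by
      apply Real.mul_le_sin
      · have : 0 ≤ tau t (1 / 2) one.1 := by linarith
        positivity
      · have h5 : (k : ℝ) * tau t (1 / 2) one.1 ≤ 1 / 4 := by nlinarith
        nlinarith
    have h4 : 2 / Real.pi * (2 * Real.pi * k * tau t (1 / 2) one.1) =
        4 * k * tau t (1 / 2) one.1 := by
      field_simp
      ring
    rw [h4] at h3
    have h5 : (k : ℝ) * t ≤ |1 / 2 * Real.sin (2 * Real.pi * k * tau t (1 / 2) one.1)| := by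
      refine le_trans ?_ (le_abs_self _)
      nlinarith
    have h6 : 1 - (t : ℝ) ≤ Real.exp (-(t : ℝ)) := by
      have := Real.add_one_le_exp (-(t : ℝ))
      linarith
    rw [h1, h2, le_div_iff₀ htpos]
    have h7 : (1 - (t : ℝ)) * (1 / 2 + k * t) ≤ Real.exp (-(t : ℝ)) *
        (1 / 2 + |1 / 2 * Real.sin (2 * Real.pi * k * tau t (1 / 2) one.1)|) := by
      apply mul_le_mul h6 (by linarith) (by positivity) (Real.exp_pos _).le
    have h8 : (k : ℝ) * t * t ≤ k * t * (1 / 4) := by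
      apply mul_le_mul_of_nonneg_left ht4 (by positivity)
    nlinarith
  · isBoundedDefault

lemma infinite_dim : ¬ FiniteDimensional ℝ X := by
  intro h
  have h2 : Module.Finite ℂ X := Module.Finite.of_restrictScalars_finite ℝ ℂ X
  have h3 : LinearIndependent ℂ (fun n : ℤ => (fourier n : X)) := by
    have h4 : LinearIndependent ℂ (@fourierLp 1 _ 2 _) := orthonormal_fourier.linearIndependent
    have h5 : (@fourierLp 1 _ 2 _) = (ContinuousMap.toLp (E := ℂ) 2
        (AddCircle.haarAddCircle (T := 1)) ℂ).toLinearMap ∘ (fun n : ℤ => (fourier n : X)) := rfl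
    rw [h5] at h4
    exact h4.of_comp _
  exact Module.Finite.not_linearIndependent_of_infinite _ h3

lemma toNN_aux (a : ℝ) (ha : 0 ≤ a) (b : ℝ≥0) (h : 2 * a.toNNReal ≤ b) : 2 * a ≤ b := by
  rw [← NNReal.coe_le_coe, NNReal.coe_mul, Real.coe_toNNReal _ ha] at h
  simpa using h

/-- **Main theorem.** There is a forward complete control system on an infinite-dimensional Banach
space with a continuous (even Lipschitz) function `V` which is an ISS Lyapunov function in
implication form but not in dissipative form. The implication form holds with `χ r = 2 r` and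
decay rate `α r = r / 2`. -/
theorem result : ∃ (X U : Type) (_ : NormedAddCommGroup X) (_ : NormedSpace ℝ X)
    (_ : NormedAddCommGroup U) (_ : NormedSpace ℝ U) (Sy : ControlSystem X U) (V : X → ℝ≥0),
    CompleteSpace X ∧ ¬ FiniteDimensional ℝ X ∧ Continuous V ∧
    (∃ K : ℝ≥0, LipschitzWith K V) ∧ ImplicationForm Sy V ∧
    (∀ (x : X) (u : Sy.inputs), 2 * Sy.nrm u ≤ ‖x‖ →
      derivative Sy V u x ≤ ((-(‖x‖) / 2 : ℝ) : EReal)) ∧
    ¬ DissipativeForm Sy V := by
  have hLip : LipschitzWith 2 V := V_lipschitz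
  refine ⟨X, ℝ, inferInstance, inferInstance, inferInstance, inferInstance, sys, V,
    inferInstance, infinite_dim, hLip.continuous, ⟨2, hLip⟩, ?_, ?_, ?_⟩
  · refine ⟨fun r => 1 * r, fun r => 2 * r, fun r => 2 * r, fun r => 2⁻¹ * r,
      isKInf_mul 1 one_pos, isKInf_mul 2 two_pos, isKInf_mul 2 two_pos,
      (isKInf_mul 2⁻¹ (by positivity)).1.1, fun x => ⟨?_, V_upper x⟩, fun x u h => ?_⟩
    · simpa using V_lower x
    · have h1 : 2 * supNorm u ≤ ‖x‖ := toNN_aux _ (apply_nonneg _ _) ‖x‖₊ h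
      refine (implication_bound x u h1).trans (le_of_eq ?_)
      congr 1
      push_cast
      ring
  · exact implication_bound
  · rintro ⟨ψ₁, ψ₂, α, σ, -, -, -, -, -, h⟩
    obtain ⟨k, hk⟩ := exists_nat_gt
      (2 * ((-(α ⟨1 / 2, by norm_num⟩ : ℝ) + (σ (supNorm one).toNNReal : ℝ)) + 1 / 2))
    have h1 := (derivative_large k).trans (h (xk k) one)
    rw [EReal.coe_le_coe_iff] at h1
    have h2 : ‖xk k‖₊ = ⟨1 / 2, by norm_num⟩ := by
      apply NNReal.coe_injective
      exact norm_xk k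
    rw [h2] at h1
    have h3 : (k : ℝ) / 2 - 1 / 2 ≤ -(α ⟨1 / 2, by norm_num⟩ : ℝ) +
      (σ (supNorm one).toNNReal : ℝ) := h1
    linarith

end Pool.Agent.Results.MP_cf29c0_an.ImplicationNotDissipative
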